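import Pool.Agent.H987Cav.Bridge

/-!
# MP_33280d_mp: generalized eigenfunctions of banded self-adjoint operators

`Hil` is `ℓ²(ℤ)`, `BandedBy A K` says `a_ij = 0` for `|i - j| ≥ K`, `BGK A` is the structure of a
BGK expansion of `A`, and `FormalEig A E v` says `∑_j a_ij v_j = E v_i` for all `i`; see
`Pool/Agent/H987Cav/Statement.lean`.

For an antitone positive weight `w` on `ℕ`:

* if `∑ w < ∞`, then for every BGK expansion of every operator, for `ρ`-a.e. `E`, every
  `w(|m|) |u_α(E;m)|²` is bounded in `m`;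
* if `∑ w = ∞`, there is a bounded self-adjoint pentadiagonal `A` with a BGK expansion, such that for
  every BGK expansion of `A` and `ρ`-a.e. `E`, *every* nonzero formal solution `v` of `A v = E v`,
  in particular every `u_α(E;·)`, has `w(|m|) |v_m|²` unbounded.

With `w = 1` the second part is the negative answer to Q1.
-/

open MeasureTheory Set H987Cav.St

namespace Pool.Agent.Results.MP_33280d_mp.EigenfunctionGrowth

/-- `m ↦ w(|m|) |v_m|²` is bounded. -/
def WBounded (w : ℕ → ℝ) (v : ℤ → ℂ) : Prop :=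
  BddAbove (range fun m : ℤ => w m.natAbs * ‖v m‖ ^ 2)

theorem result (w : ℕ → ℝ) (hw : ∀ m, 0 < w m) (hanti : Antitone w) :
    (Summable w → ∀ (A : Op) (B : BGK A), ∀ᵐ E ∂B.ρ, ∀ α : ℕ, (α : ℕ∞) < B.n E →
      WBounded w (B.u E α)) ∧
    (¬ Summable w → ∃ A : Op, IsSelfAdjoint A ∧ BandedBy A 3 ∧
      (∃ B : BGK A, IsFiniteMeasure B.ρ ∧
        ∀ E, ∀ α : ℕ, (α : ℕ∞) < B.n E → ∀ m : ℤ, ‖B.u E α m‖ ≤ 1 + |(m : ℝ)|) ∧
      ∀ B : BGK A, B.ρ ≠ 0 ∧ ∀ᵐ E ∂B.ρ, 1 ≤ B.n E ∧
        (∀ α : ℕ, (α : ℕ∞) < B.n E → ¬ WBounded w (B.u E α)) ∧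
        ∀ v : ℤ → ℂ, v ≠ 0 → FormalEig A E v → ¬ WBounded w v) := by
  constructor
  · intro hs A B
    filter_upwards [H987Cav.summable_dir w (fun m => (hw m).le) hs (H987Cav.toBGK B)]
      with E hE α hα
    refine ⟨∑' m : ℤ, w m.natAbs * ‖B.u E α m‖ ^ 2, ?_⟩
    rintro _ ⟨m, rfl⟩
    exact (hE α hα).le_tsum m (fun j _ => mul_nonneg (hw _).le (by positivity))
  · intro hns
    obtain ⟨e, η, he0, he1, hew, hη, hη0, hbig, htop⟩ := H987Cav.exists_widths w hw hanti hns
    have h := H987Cav.good e he1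
    have hC := H987Cav.growth_ff e he1 hbig
    have hsa := H987Cav.Aop_symm h
    have hcar : ∀ B : H987Cav.BGK (H987Cav.Aop h), ∀ᵐ E ∂B.ρ, E ∈ Ioo (-1 : ℝ) 1 :=
      H987Cav.carried (H987Cav.bgk h 1 hC) H987Cav.rho0_ae (H987Cav.Aop_norm h) hsa
    have hsol : ∀ E ∈ Ioo (-1 : ℝ) 1, ∀ v : ℤ → ℂ, v ≠ 0 →
        H987Cav.FormalEig (H987Cav.Aop h) (E : ℂ) v → ¬ WBounded w v := by
      intro E hE v hv hf
      set z := H987Cav.zt (H987Cav.Zc (E, 0)) with hz
      set z' := H987Cav.zt (H987Cav.Zc (E, 1)) with hz'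
      have hzn : ‖z‖ = 1 := H987Cav.norm_zt _
      have hzn' : ‖z'‖ = 1 := H987Cav.norm_zt _
      have hre : z.re = E := H987Cav.re_Zc' hE 0
      have hre' : z'.re = E := H987Cav.re_Zc' hE 1
      have hne : z ≠ z' := by
        rw [hz, hz', H987Cav.zt_Zc0 hE, H987Cav.zt_Zc1 hE (by norm_num)]
        intro hh
        have := congrArg Complex.im hh
        simp only at this
        linarith [H987Cav.sqrt_pos' hE]
      rw [← hre] at hf
      obtain ⟨α, β, hαβ⟩ := H987Cav.sol_span h hzn hzn' hne (by rw [hre, hre']) hf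
      unfold WBounded
      by_cases hα : α = 0
      · by_cases hβ : β = 0
        · exfalso
          apply hv
          funext m
          rw [hαβ m, hα, hβ]; simp
        · have := H987Cav.unbdd w hw hanti e η he0 he1 hew hη hη0 htop hzn' hzn hne.symm β α hβ
          simpa only [hαβ, add_comm] using this
      · have := H987Cav.unbdd w hw hanti e η he0 he1 hew hη hη0 htop hzn hzn' hne α β hα
        simpa only [hαβ] using this
    refine ⟨H987Cav.ofOp (H987Cav.Aop h), H987Cav.Aop_sa h,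
      fun i j hij => H987Cav.banded h i j (by exact_mod_cast hij), ?_, ?_⟩
    · refine ⟨H987Cav.ofBGK (A := H987Cav.ofOp (H987Cav.Aop h)) (H987Cav.bgk h 1 hC),
        inferInstanceAs (IsFiniteMeasure H987Cav.rho0), fun E α _ m => ?_⟩
      have := hC m _ (H987Cav.norm_zt (H987Cav.Zc (E, α)))
      rw [one_mul] at this
      exact this
    · intro B
      set B' : H987Cav.BGK (H987Cav.Aop h) := H987Cav.toBGK B with hB'
      refine ⟨?_, ?_⟩
      · intro h0
        have h1 : H987Cav.fib B'.ρ B'.n = 0 := by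
          unfold H987Cav.fib
          rw [show B'.ρ = 0 from h0]
          simp
        have h2 : B'.U (H987Cav.del 0) = 0 := by
          apply Lp.ext
          have h4 : ae (H987Cav.fib B'.ρ B'.n) = ⊥ := by rw [h1]; exact ae_zero
          unfold Filter.EventuallyEq
          rw [h4]
          exact Filter.eventually_bot
        have h3 := B'.U.norm_map (H987Cav.del 0)
        rw [h2, norm_zero, H987Cav.norm_del] at h3
        norm_num at h3
      · filter_upwards [hcar B', B'.one_le_n] with E hE hn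
        refine ⟨hn, fun α hα => ?_, hsol E hE⟩
        have hne : B'.u E α ≠ 0 := (B'.linInd E).ne_zero ⟨α, hα⟩
        exact hsol E hE (B'.u E α) hne (B'.eigen E α hα)

end Pool.Agent.Results.MP_33280d_mp.EigenfunctionGrowth
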